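import Pool.Agent.TH220.NT.Code

/-! Sumsets of kissing configurations, explicit forms (for MP_b5f63d_co). -/

open Set
open scoped InnerProductSpace

namespace Pool.Agent.P8H66.KSum

open Pool.Agent.TH220.NT


theorem fibre_pos {n : ℕ} {X Y : Finset (EuclideanSpace ℝ (Fin n))} {a : ℝ} (ha : 0 < a)
    (hX1 : ∀ x ∈ X, ‖x‖ = 1) (hY1 : ∀ x ∈ Y, ‖x‖ = 1)
    (hX : ∀ x ∈ X, ∀ x' ∈ X, x ≠ x' → ⟪x, x'⟫_ℝ ≤ 1 / 2)
    (hY : ∀ x ∈ Y, ∀ x' ∈ Y, x ≠ x' → ⟪x, x'⟫_ℝ ≤ 1 / 2)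
    (S : Finset (EuclideanSpace ℝ (Fin n) × EuclideanSpace ℝ (Fin n)))
    (hS : S ⊆ X ×ˢ Y) {z : EuclideanSpace ℝ (Fin n)} (hz : ∀ p ∈ S, p.1 + a • p.2 = z)
    {t : ℝ} (ht : 0 ≤ t) (htz : ‖z‖ ^ 2 = 1 + a ^ 2 + 2 * a * t) : S.card * t ≤ 1 := by
  classical
  rcases S.eq_empty_or_nonempty with rfl | hne
  · simp
  have hin : ∀ p ∈ S, ⟪p.1, p.2⟫_ℝ = t := by
    intro p hp
    obtain ⟨h1, h2⟩ := Finset.mem_product.1 (hS hp)
    have h3 := hz p hp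
    rw [← h3, @norm_add_sq_real, hX1 _ h1, norm_smul, hY1 _ h2, real_inner_smul_right,
      Real.norm_eq_abs, mul_one, sq_abs] at htz
    have : a * ⟪p.1, p.2⟫_ℝ = a * t := by linarith
    exact mul_left_cancel₀ ha.ne' this
  have ht1 : t ≤ 1 := by
    obtain ⟨p, hp⟩ := hne
    obtain ⟨h1, h2⟩ := Finset.mem_product.1 (hS hp)
    rw [← hin p hp]
    have := real_inner_le_norm p.1 p.2
    rwa [hX1 _ h1, hY1 _ h2, mul_one] at this
  set μ : ℝ := max 1 (a ^ 2) with hμ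
  have hμ1 : 1 ≤ μ := le_max_left _ _
  have hpair : ∀ p ∈ S, ∀ q ∈ S, ⟪p.1, q.1⟫_ℝ ≤ (1 - μ / 2) + (if p = q then μ / 2 else 0) := by
    intro p hp q hq
    obtain ⟨h1, h2⟩ := Finset.mem_product.1 (hS hp)
    obtain ⟨k1, k2⟩ := Finset.mem_product.1 (hS hq)
    split_ifs with hpq
    · rw [← hpq, real_inner_self_eq_norm_sq, hX1 _ h1]
      linarith
    · have e0 : p.1 - q.1 = a • (q.2 - p.2) := by
        have : p.1 + a • p.2 = q.1 + a • q.2 := (hz p hp).trans (hz q hq).symm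
        rw [smul_sub]
        have e3 : p.1 = q.1 + a • q.2 - a • p.2 := eq_sub_of_add_eq this
        rw [e3]
        abel
      have hne1 : p.1 ≠ q.1 := by
        intro h
        rw [h, sub_self] at e0
        have e1 : q.2 - p.2 = 0 := (smul_eq_zero.1 e0.symm).resolve_left ha.ne'
        exact hpq (Prod.ext h (sub_eq_zero.1 e1).symm)
      have hne2 : q.2 ≠ p.2 := by
        intro h
        rw [h, sub_self, smul_zero] at e0
        exact hne1 (sub_eq_zero.1 e0)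
      have e1 := hX _ h1 _ k1 hne1
      have e2 := hY _ k2 _ h2 hne2
      have e3 : ‖p.1 - q.1‖ ^ 2 = 2 - 2 * ⟪p.1, q.1⟫_ℝ := by
        rw [@norm_sub_sq_real, hX1 _ h1, hX1 _ k1]; ring
      have e4 : ‖q.2 - p.2‖ ^ 2 = 2 - 2 * ⟪q.2, p.2⟫_ℝ := by
        rw [@norm_sub_sq_real, hY1 _ h2, hY1 _ k2]; ring
      have e5 : ‖p.1 - q.1‖ ^ 2 = a ^ 2 * ‖q.2 - p.2‖ ^ 2 := by
        rw [e0, norm_smul, mul_pow, Real.norm_eq_abs, sq_abs]
      have e6 : a ^ 2 * 1 ≤ a ^ 2 * ‖q.2 - p.2‖ ^ 2 :=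
        mul_le_mul_of_nonneg_left (by linarith) (sq_nonneg _)
      have e7 : μ ≤ 2 - 2 * ⟪p.1, q.1⟫_ℝ := by
        apply max_le <;> linarith
      linarith
  set m : ℝ := (S.card : ℝ) with hm
  have hm0 : 0 < m := by rw [hm]; exact_mod_cast hne.card_pos
  set s : EuclideanSpace ℝ (Fin n) := ∑ p ∈ S, p.1 with hs
  have hsz : ⟪s, z⟫_ℝ = m * (1 + a * t) := by
    rw [hs, sum_inner]
    have : ∀ p ∈ S, ⟪p.1, z⟫_ℝ = 1 + a * t := by
      intro p hp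
      rw [← hz p hp, inner_add_right, real_inner_smul_right, hin p hp,
        real_inner_self_eq_norm_sq, hX1 _ (Finset.mem_product.1 (hS hp)).1]
      ring
    rw [Finset.sum_congr rfl this, Finset.sum_const, nsmul_eq_mul]
  have hss : ‖s‖ ^ 2 ≤ m * (m * (1 - μ / 2) + μ / 2) := by
    rw [← real_inner_self_eq_norm_sq, hs, sum_inner]
    have : ∀ p ∈ S, ⟪p.1, ∑ q ∈ S, q.1⟫_ℝ ≤ m * (1 - μ / 2) + μ / 2 := by
      intro p hp
      rw [inner_sum]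
      refine (Finset.sum_le_sum (fun q hq => hpair p hp q hq)).trans ?_
      rw [Finset.sum_add_distrib, Finset.sum_const, nsmul_eq_mul, Finset.sum_ite_eq]
      simp [hp, hm]
    refine (Finset.sum_le_sum this).trans ?_
    rw [Finset.sum_const, nsmul_eq_mul]
  have hcs : ⟪s, z⟫_ℝ ^ 2 ≤ ‖s‖ ^ 2 * ‖z‖ ^ 2 := by
    have h1 := abs_real_inner_le_norm s z
    rw [← mul_pow, ← sq_abs]
    exact pow_le_pow_left₀ (abs_nonneg _) h1 2
  set Q : ℝ := 1 + a ^ 2 + 2 * a * t with hQ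
  have hQ0 : 0 < Q := by positivity
  rw [hsz, htz] at hcs
  have h1 : (m * (1 + a * t)) ^ 2 ≤ m * (m * (1 - μ / 2) + μ / 2) * Q :=
    hcs.trans (mul_le_mul_of_nonneg_right hss hQ0.le)
  have h2 : m * (m * (1 + a * t) ^ 2) ≤ m * ((m * (1 - μ / 2) + μ / 2) * Q) := by
    calc m * (m * (1 + a * t) ^ 2) = (m * (1 + a * t)) ^ 2 := by ring
      _ ≤ _ := h1
      _ = _ := by ring
  have h3 := le_of_mul_le_mul_left h2 hm0
  have h4 : m * (μ / 2 * Q - a ^ 2 * (1 - t ^ 2)) ≤ μ / 2 * Q := by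
    have : (1 + a * t) ^ 2 = Q - a ^ 2 * (1 - t ^ 2) := by rw [hQ]; ring
    rw [this] at h3
    linarith
  have h5 : 2 * a ^ 2 * (1 + t) ≤ μ * Q := by
    rw [hQ]
    rcases le_total a 1 with h | h
    · have : μ = 1 := by
        rw [hμ]; apply max_eq_left; nlinarith
      rw [this]
      nlinarith [mul_nonneg (mul_nonneg ha.le ht) (sub_nonneg.2 h)]
    · have : μ = a ^ 2 := by
        rw [hμ]; apply max_eq_right; nlinarith
      rw [this]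
      have k1 : 2 * (1 + t) ≤ 1 + a ^ 2 + 2 * a * t := by
        nlinarith [mul_nonneg ht (sub_nonneg.2 h)]
      nlinarith [mul_le_mul_of_nonneg_left k1 (sq_nonneg a)]
  have h6 : t * (μ / 2 * Q) ≤ μ / 2 * Q - a ^ 2 * (1 - t ^ 2) := by
    have k1 := mul_nonneg (sub_nonneg.2 ht1) (sub_nonneg.2 h5)
    nlinarith
  have h7 : (m * t) * (μ / 2 * Q) ≤ 1 * (μ / 2 * Q) := by
    have := mul_le_mul_of_nonneg_left h6 hm0.le
    linarith
  exact le_of_mul_le_mul_right h7 (by positivity)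

/-- `∑ ⟪x, y⟫⁺ ≤ |X + a Y|` for kissing configurations and `a > 0` -/
theorem pos_le {n : ℕ} {X Y : Finset (EuclideanSpace ℝ (Fin n))} {a : ℝ} (ha : 0 < a)
    (hX1 : ∀ x ∈ X, ‖x‖ = 1) (hY1 : ∀ x ∈ Y, ‖x‖ = 1)
    (hX : ∀ x ∈ X, ∀ x' ∈ X, x ≠ x' → ⟪x, x'⟫_ℝ ≤ 1 / 2)
    (hY : ∀ x ∈ Y, ∀ x' ∈ Y, x ≠ x' → ⟪x, x'⟫_ℝ ≤ 1 / 2)
    {Z : Finset (EuclideanSpace ℝ (Fin n))} (hZ : ∀ x ∈ X, ∀ y ∈ Y, x + a • y ∈ Z) :
    ∑ x ∈ X, ∑ y ∈ Y, max 0 ⟪x, y⟫_ℝ ≤ Z.card := by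
  classical
  rw [← Finset.sum_product (s := X) (t := Y) (f := fun p => max 0 ⟪p.1, p.2⟫_ℝ)]
  rw [← Finset.sum_fiberwise_of_maps_to (s := X ×ˢ Y) (t := Z) (g := fun p => p.1 + a • p.2)
    (fun p hp => hZ _ (Finset.mem_product.1 hp).1 _ (Finset.mem_product.1 hp).2)]
  have : ∀ z ∈ Z, ∑ p ∈ (X ×ˢ Y).filter (fun p => p.1 + a • p.2 = z), max 0 ⟪p.1, p.2⟫_ℝ ≤ 1 := by
    intro z _
    set S := (X ×ˢ Y).filter (fun p => p.1 + a • p.2 = z) with hS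
    rcases S.eq_empty_or_nonempty with h0 | ⟨q, hq⟩
    · rw [h0]; simp
    set t := (‖z‖ ^ 2 - 1 - a ^ 2) / (2 * a) with ht
    have htz : ‖z‖ ^ 2 = 1 + a ^ 2 + 2 * a * t := by
      rw [ht]; field_simp; ring
    have hin : ∀ p ∈ S, ⟪p.1, p.2⟫_ℝ = t := by
      intro p hp
      obtain ⟨h1, h2⟩ := Finset.mem_product.1 (Finset.mem_filter.1 hp).1
      have h3 := (Finset.mem_filter.1 hp).2
      rw [← h3, @norm_add_sq_real, hX1 _ h1, norm_smul, hY1 _ h2, real_inner_smul_right,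
        Real.norm_eq_abs, mul_one, sq_abs] at htz
      have : a * ⟪p.1, p.2⟫_ℝ = a * t := by linarith
      exact mul_left_cancel₀ ha.ne' this
    rw [Finset.sum_congr rfl (fun p hp => by rw [hin p hp]), Finset.sum_const, nsmul_eq_mul]
    rcases le_total 0 t with h | h
    · rw [max_eq_right h]
      exact fibre_pos ha hX1 hY1 hX hY S (Finset.filter_subset _ _)
        (fun p hp => (Finset.mem_filter.1 hp).2) h htz
    · rw [max_eq_left h, mul_zero]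
      exact zero_le_one
  refine (Finset.sum_le_sum this).trans ?_
  simp

/-- the second moment of the inner products of unit vectors -/
theorem second_moment {n : ℕ} {X : Finset (EuclideanSpace ℝ (Fin n))}
    (hX1 : ∀ x ∈ X, ‖x‖ = 1) :
    (X.card : ℝ) ^ 2 ≤ n * ∑ x ∈ X, ∑ y ∈ X, ⟪x, y⟫_ℝ ^ 2 := by
  have e1 : ∑ x ∈ X, ∑ y ∈ X, ⟪x, y⟫_ℝ ^ 2 = ∑ i : Fin n, ∑ j : Fin n,
      (∑ x ∈ X, x i * x j) ^ 2 := by
    have f1 : ∀ x ∈ X, ∀ y ∈ X, ⟪x, y⟫_ℝ ^ 2 = ∑ i : Fin n, ∑ j : Fin n,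
        (x i * x j) * (y i * y j) := by
      intro x _ y _
      rw [PiLp.inner_apply, sq, Finset.sum_mul_sum]
      refine Finset.sum_congr rfl (fun i _ => Finset.sum_congr rfl (fun j _ => ?_))
      simp only [RCLike.inner_apply, conj_trivial]
      ring
    rw [Finset.sum_congr rfl (fun x hx => Finset.sum_congr rfl (fun y hy => f1 x hx y hy))]
    have f2 : ∀ x ∈ X, ∑ y ∈ X, ∑ i : Fin n, ∑ j : Fin n, (x i * x j) * (y i * y j) =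
        ∑ i : Fin n, ∑ j : Fin n, (x i * x j) * ∑ y ∈ X, y i * y j := by
      intro x _
      rw [Finset.sum_comm]
      refine Finset.sum_congr rfl (fun i _ => ?_)
      rw [Finset.sum_comm]
      refine Finset.sum_congr rfl (fun j _ => ?_)
      rw [Finset.mul_sum]
    rw [Finset.sum_congr rfl f2, Finset.sum_comm]
    refine Finset.sum_congr rfl (fun i _ => ?_)
    rw [Finset.sum_comm]
    refine Finset.sum_congr rfl (fun j _ => ?_)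
    rw [← Finset.sum_mul, sq]
  have e2 : ∑ i : Fin n, (∑ x ∈ X, x i * x i) ^ 2 ≤ ∑ i : Fin n, ∑ j : Fin n,
      (∑ x ∈ X, x i * x j) ^ 2 := by
    refine Finset.sum_le_sum (fun i _ => ?_)
    exact Finset.single_le_sum (f := fun j => (∑ x ∈ X, x i * x j) ^ 2)
      (fun j _ => sq_nonneg _) (Finset.mem_univ i)
  have e3 : ∑ i : Fin n, ∑ x ∈ X, x i * x i = X.card := by
    rw [Finset.sum_comm]
    have : ∀ x ∈ X, ∑ i : Fin n, x i * x i = 1 := by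
      intro x hx
      have h1 := hX1 x hx
      have h2 : ‖x‖ ^ 2 = 1 := by rw [h1]; norm_num
      rw [EuclideanSpace.real_norm_sq_eq] at h2
      rw [← h2]
      exact Finset.sum_congr rfl (fun i _ => by ring)
    rw [Finset.sum_congr rfl this]
    simp
  have e4 := sq_sum_le_card_mul_sum_sq (s := (Finset.univ : Finset (Fin n)))
    (f := fun i => ∑ x ∈ X, x i * x i)
  rw [e3, Finset.card_univ, Fintype.card_fin] at e4
  rw [e1]
  exact e4.trans (mul_le_mul_of_nonneg_left e2 (Nat.cast_nonneg _))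

theorem self_le {n : ℕ} {X : Finset (EuclideanSpace ℝ (Fin n))} {a : ℝ} (ha : 0 < a)
    (hX1 : ∀ x ∈ X, ‖x‖ = 1)
    (hX : ∀ x ∈ X, ∀ x' ∈ X, x ≠ x' → ⟪x, x'⟫_ℝ ≤ 1 / 2)
    {Z : Finset (EuclideanSpace ℝ (Fin n))} (hZ : ∀ x ∈ X, ∀ y ∈ X, x + a • y ∈ Z) :
    (X.card : ℝ) ^ 2 ≤ 2 * n * Z.card := by
  have h1 := pos_le ha hX1 hX1 hX hX hZ
  have h2 := second_moment hX1
  have h3 : 0 ≤ ∑ x ∈ X, ∑ y ∈ X, ⟪x, y⟫_ℝ := by
    have : ∑ x ∈ X, ∑ y ∈ X, ⟪x, y⟫_ℝ = ⟪∑ x ∈ X, x, ∑ y ∈ X, y⟫_ℝ := by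
      rw [sum_inner]
      exact Finset.sum_congr rfl (fun x _ => by rw [inner_sum])
    rw [this, real_inner_self_eq_norm_sq]
    positivity
  have h4 : ∑ x ∈ X, ∑ y ∈ X, ⟪x, y⟫_ℝ ^ 2 ≤
      ∑ x ∈ X, ∑ y ∈ X, (2 * max 0 ⟪x, y⟫_ℝ - ⟪x, y⟫_ℝ) := by
    refine Finset.sum_le_sum (fun x hx => Finset.sum_le_sum (fun y hy => ?_))
    have k1 := abs_real_inner_le_norm x y
    rw [hX1 x hx, hX1 y hy, mul_one] at k1
    obtain ⟨k2, k3⟩ := abs_le.1 k1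
    rcases le_total 0 ⟪x, y⟫_ℝ with h | h
    · rw [max_eq_right h]; nlinarith
    · rw [max_eq_left h]; nlinarith
  have h5 : ∑ x ∈ X, ∑ y ∈ X, (2 * max 0 ⟪x, y⟫_ℝ - ⟪x, y⟫_ℝ) =
      2 * ∑ x ∈ X, ∑ y ∈ X, max 0 ⟪x, y⟫_ℝ - ∑ x ∈ X, ∑ y ∈ X, ⟪x, y⟫_ℝ := by
    rw [Finset.mul_sum, ← Finset.sum_sub_distrib]
    refine Finset.sum_congr rfl (fun x _ => ?_)
    rw [Finset.sum_sub_distrib, Finset.mul_sum]
  rw [h5] at h4
  have h6 : ∑ x ∈ X, ∑ y ∈ X, ⟪x, y⟫_ℝ ^ 2 ≤ 2 * Z.card := by linarith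
  calc (X.card : ℝ) ^ 2 ≤ n * ∑ x ∈ X, ∑ y ∈ X, ⟪x, y⟫_ℝ ^ 2 := h2
    _ ≤ n * (2 * Z.card) := mul_le_mul_of_nonneg_left h6 (Nat.cast_nonneg _)
    _ = _ := by ring

end Pool.Agent.P8H66.KSum
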