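import Pool.Agent.P8H66.KSum.Main
import Pool.Agent.P8H66.KSum.Pos
import Pool.Agent.TH220.NT.Num

/-! Sumsets of kissing configurations (for MP_b5f63d_co): growth rates and numerical forms. -/

open Filter Set
open scoped Topology InnerProductSpace

namespace Pool.Agent.P8H66.KSum

open Pool.Agent.TH220.NT

theorem sep_of {n : ℕ} {X : Finset (E n)} (h1 : ∀ x ∈ X, ‖x‖ = 1)
    (h2 : ∀ x ∈ X, ∀ y ∈ X, x ≠ y → ⟪x, y⟫_ℝ ≤ 1 / 2) :
    ∀ x ∈ X, ∀ x' ∈ X, x ≠ x' → 1 ≤ ‖x - x'‖ ^ 2 := by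
  intro x hx y hy hxy
  rw [@norm_sub_sq_real, h1 x hx, h1 y hy]
  have := h2 x hx y hy hxy
  linarith

theorem num_third : ∀ᶠ n : ℕ in atTop,
    (codeMax (n + 1) (1 / 3) : ℝ) ≤ (2 : ℝ) ^ (397 / 2000 * n : ℝ) := by
  have h1 := code_asym' (s := 1 / 3) (v := 19 / 625) (by norm_num) (by norm_num)
    (ε := 1 / 100000) (by norm_num) 1 one_pos
  have h2 := G_le (v := 19 / 625) (by norm_num) (a := 25) (b := 126) (by norm_num) (by norm_num)
  have h3 := Real.log_two_gt_d9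
  filter_upwards [h1] with n hn
  rw [one_mul] at hn
  refine hn.trans ?_
  rw [Real.rpow_def_of_pos two_pos]
  apply Real.exp_le_exp.2
  have h4 : G (19 / 625) + 1 / 100000 ≤ Real.log 2 * (397 / 2000) := by
    push_cast at h2
    linarith
  have h5 : (0 : ℝ) ≤ n := Nat.cast_nonneg _
  nlinarith [mul_le_mul_of_nonneg_right h4 h5]

open scoped Pointwise in
open Classical in
theorem expand_num : ∀ᶠ n : ℕ in atTop, ∀ (X B : Finset (E n)), (∀ x ∈ X, ‖x‖ ≤ 1) →
    (∀ x ∈ X, ∀ x' ∈ X, x ≠ x' → 1 ≤ ‖x - x'‖ ^ 2) →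
    1 / 2 * min ((X.card : ℝ) * B.card)
      ((2 : ℝ) ^ (-(397 / 2000 * n) : ℝ) * (X.card : ℝ) ^ 2) ≤ (X + B).card := by
  filter_upwards [num_third] with n hn X B hX1 hX
  have h1 := expand hX1 hX B
  set A : ℝ := (codeMax (n + 1) (1 / 3) : ℝ) with hA
  have h2 : (X.card : ℝ) ^ 2 * B.card ≤ (X + B).card * (X.card + A * B.card) := by
    rw [hA]
    exact_mod_cast h1
  set P : ℝ := (2 : ℝ) ^ (397 / 2000 * n : ℝ) with hP
  have hP0 : 0 < P := by positivity
  have hPi : (2 : ℝ) ^ (-(397 / 2000 * n) : ℝ) = P⁻¹ := by rw [Real.rpow_neg two_pos.le]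
  rw [hPi]
  set x : ℝ := (X.card : ℝ) with hx
  set b : ℝ := (B.card : ℝ) with hb
  set s : ℝ := ((X + B).card : ℝ) with hs
  have hx0 : 0 ≤ x := Nat.cast_nonneg _
  have hb0 : 0 ≤ b := Nat.cast_nonneg _
  have hs0 : 0 ≤ s := Nat.cast_nonneg _
  have h3 : x ^ 2 * b ≤ s * (x + P * b) :=
    h2.trans (mul_le_mul_of_nonneg_left
      (by have := mul_le_mul_of_nonneg_right hn hb0; linarith) hs0)
  rcases hx0.eq_or_lt with h0 | hx0'
  · rw [← h0]; simp [hs0]
  rcases hb0.eq_or_lt with h0 | hb0'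
  · rw [← h0, mul_zero]
    have : min (0 : ℝ) (P⁻¹ * x ^ 2) = 0 := min_eq_left (by positivity)
    rw [this]; linarith
  rcases le_total x (P * b) with h | h
  · refine le_trans (mul_le_mul_of_nonneg_left (min_le_right _ _) (by norm_num)) ?_
    have h4 : x ^ 2 * b ≤ s * (2 * P) * b := by
      refine h3.trans ?_
      have := mul_le_mul_of_nonneg_left h hs0
      nlinarith
    have h5 := le_of_mul_le_mul_right h4 hb0'
    rw [← mul_assoc, ← div_eq_mul_inv (1 / 2 : ℝ) P, div_mul_eq_mul_div, div_le_iff₀ hP0]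
    linarith
  · refine le_trans (mul_le_mul_of_nonneg_left (min_le_left _ _) (by norm_num)) ?_
    have h4 : (x * b) * x ≤ (s * 2) * x := by
      have h6 : (x * b) * x = x ^ 2 * b := by ring
      rw [h6]
      refine h3.trans ?_
      have := mul_le_mul_of_nonneg_left h hs0
      nlinarith
    have h5 := le_of_mul_le_mul_right h4 hx0'
    linarith

end Pool.Agent.P8H66.KSum
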