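import Pool.Agent.P8H66.KSum.Stop

/-! Sumsets of separated sets in the unit ball (for MP_b5f63d_co): the main inequality. -/

open Filter Set
open scoped Topology InnerProductSpace

namespace Pool.Agent.P8H66.KSum

open Pool.Agent.TH220.NT

/-- the constant of the main inequality -/
noncomputable def cst (ε : ℝ) : ℝ := 3 / ε * (ε ^ (2 * ⌈1 / ε⌉₊))⁻¹

theorem cst_pos {ε : ℝ} (hε : 0 < ε) : 0 < cst ε := by unfold cst; positivity

theorem main_ineq {n : ℕ} {σ ε : ℝ} (hσ : 0 < σ) (hε : 0 < ε) (hε3 : ε ≤ 1 / 3) {a : ℝ}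
    (ha : a ≠ 0) {X Y Z : Finset (E n)} (hX1 : ∀ x ∈ X, ‖x‖ ≤ 1) (hY1 : ∀ x ∈ Y, ‖x‖ ≤ 1)
    (hX : ∀ x ∈ X, ∀ x' ∈ X, x ≠ x' → σ ≤ ‖x - x'‖ ^ 2)
    (hY : ∀ y ∈ Y, ∀ y' ∈ Y, y ≠ y' → σ ≤ ‖y - y'‖ ^ 2)
    (hZ : ∀ x ∈ X, ∀ y ∈ Y, x + a • y ∈ Z) :
    (X.card * Y.card : ℝ) ≤ cst ε * codeMax (n + 1) (1 - σ / (1 + 3 * ε)) * Z.card := by
  classical
  rcases X.eq_empty_or_nonempty with rfl | hXn
  · simp only [Finset.card_empty, Nat.cast_zero, zero_mul]
    have := cst_pos hε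
    positivity
  rcases Y.eq_empty_or_nonempty with rfl | hYn
  · simp only [Finset.card_empty, Nat.cast_zero, mul_zero]
    have := cst_pos hε
    positivity
  set K := ⌈1 / ε⌉₊ with hK
  have hK1 : (1 : ℝ) ≤ K * ε := by
    have := Nat.le_ceil (1 / ε)
    rw [div_le_iff₀ hε] at this
    exact this
  have hball : ∀ {W : Finset (E n)}, (∀ x ∈ W, ‖x‖ ≤ 1) → ∀ x ∈ W, ‖x - 0‖ ^ 2 ≤ 1 := by
    intro W hW x hx
    rw [sub_zero]
    have := hW x hx
    nlinarith [norm_nonneg x]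
  obtain ⟨X', c, ρ, a1, a2, a3, a4, a5, a6⟩ := stop hε (by linarith) hε K X 0 1 hXn hK1
    (hball hX1)
  obtain ⟨Y', c', ρ', b1, b2, b3, b4, b5, b6⟩ := stop hε (by linarith) hε K Y 0 1 hYn hK1
    (hball hY1)
  have hav : ∀ b : E n, (ρ - 2 * ε) * X'.card ≤ ∑ x ∈ X', ‖x - b‖ ^ 2 := by
    intro b
    have := avg_ge a3 hε.le hε.le (a6 b).le
    linarith
  have hav' : ∀ b : E n, (ρ' - 2 * ε) * Y'.card ≤ ∑ x ∈ Y', ‖x - b‖ ^ 2 := by
    intro b
    have := avg_ge b3 hε.le hε.le (b6 b).le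
    linarith
  have h1 := pairs_ge a2 b2 ha hε hε3 a3 b3 a4 b4 hav hav'
  have h2 := Finset.card_le_mul_card_image_of_maps_to
    (s := (X' ×ˢ Y').filter (fun p =>
      ρ + a ^ 2 * ρ' - 3 * ε * (1 + a ^ 2) ≤ ‖(p.1 - c) + a • (p.2 - c')‖ ^ 2))
    (f := fun p => p.1 + a • p.2) (t := Z)
    (fun p hp => hZ _ (a1 (Finset.mem_product.1 (Finset.mem_filter.1 hp).1).1) _
      (b1 (Finset.mem_product.1 (Finset.mem_filter.1 hp).1).2))
    (codeMax (n + 1) (1 - σ / (1 + 3 * ε)))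
    (fun z _ => fibre_le ha z hσ hε.le a3 b3 a4 b4
      (fun x hx x' hx' => hX x (a1 hx) x' (a1 hx')) (fun x hx x' hx' => hY x (b1 hx) x' (b1 hx')))
  have h3 : ε / 3 * (X'.card * Y'.card) ≤ codeMax (n + 1) (1 - σ / (1 + 3 * ε)) * Z.card :=
    h1.trans (by exact_mod_cast h2)
  have h4 : (ε ^ K * X.card) * (ε ^ K * Y.card) ≤ X'.card * Y'.card :=
    mul_le_mul a5 b5 (by positivity) (by positivity)
  have h5 : ε / 3 * ((ε ^ K * X.card) * (ε ^ K * Y.card)) ≤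
      codeMax (n + 1) (1 - σ / (1 + 3 * ε)) * Z.card :=
    (mul_le_mul_of_nonneg_left h4 (by positivity)).trans h3
  calc (X.card * Y.card : ℝ) = cst ε * (ε / 3 * ((ε ^ K * X.card) * (ε ^ K * Y.card))) := by
        unfold cst
        rw [← hK]
        have : ε ^ (2 * K) = ε ^ K * ε ^ K := by rw [two_mul, pow_add]
        rw [this]
        field_simp
    _ ≤ cst ε * (codeMax (n + 1) (1 - σ / (1 + 3 * ε)) * Z.card) :=
        mul_le_mul_of_nonneg_left h5 (cst_pos hε).le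
    _ = _ := by ring

theorem main_gen {n : ℕ} {σ ε : ℝ} (hε : 0 < ε) (hεσ : ε < σ) {a : ℝ}
    (ha : a ≠ 0) {X Y Z : Finset (E n)} (hX1 : ∀ x ∈ X, ‖x‖ ≤ 1) (hY1 : ∀ x ∈ Y, ‖x‖ ≤ 1)
    (hX : ∀ x ∈ X, ∀ x' ∈ X, x ≠ x' → σ ≤ ‖x - x'‖ ^ 2)
    (hY : ∀ y ∈ Y, ∀ y' ∈ Y, y ≠ y' → σ ≤ ‖y - y'‖ ^ 2)
    (hZ : ∀ x ∈ X, ∀ y ∈ Y, x + a • y ∈ Z) :
    (X.card * Y.card : ℝ) ≤ cst (min (1 / 3) (ε / (3 * σ))) * codeMax (n + 1) (1 - σ + ε) *
      Z.card := by
  have hσ : 0 < σ := hε.trans hεσ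
  set e := min (1 / 3) (ε / (3 * σ)) with he
  have he0 : 0 < e := lt_min (by norm_num) (by positivity)
  have h1 := main_ineq hσ he0 (min_le_left _ _) ha hX1 hY1 hX hY hZ
  refine h1.trans ?_
  have h2 : codeMax (n + 1) (1 - σ / (1 + 3 * e)) ≤ codeMax (n + 1) (1 - σ + ε) := by
    apply codeMax_mono
    · have k1 : e ≤ ε / (3 * σ) := min_le_right _ _
      have k2 : 3 * σ * e ≤ ε := by
        rw [le_div_iff₀ (by positivity)] at k1
        linarith
      have k3 : σ - 3 * σ * e ≤ σ / (1 + 3 * e) := by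
        rw [le_div_iff₀ (by positivity)]
        nlinarith [mul_pos hσ (mul_pos he0 he0)]
      linarith
    · linarith
  have h3 := (cst_pos he0).le
  have h4 : (codeMax (n + 1) (1 - σ / (1 + 3 * e)) : ℝ) ≤ codeMax (n + 1) (1 - σ + ε) := by
    exact_mod_cast h2
  exact mul_le_mul_of_nonneg_right (mul_le_mul_of_nonneg_left h4 h3) (Nat.cast_nonneg _)

theorem G_cont : Continuous G := by
  unfold G
  have h1 : Continuous (fun v : ℝ => (1 + v) * Real.log (1 + v)) :=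
    Real.continuous_mul_log.comp (continuous_const.add continuous_id)
  exact h1.sub Real.continuous_mul_log

theorem exists_eps {η : ℝ} (hη : 0 < η) :
    ∃ ε : ℝ, 0 < ε ∧ ε ≤ 1 / 6 ∧ G (9 * ε ^ 2) < η := by
  have h1 : Continuous (fun ε : ℝ => G (9 * ε ^ 2)) := G_cont.comp (by fun_prop)
  have h2 : ∀ᶠ ε : ℝ in 𝓝 0, G (9 * ε ^ 2) < η := by
    apply h1.continuousAt.eventually_lt continuousAt_const
    simp [G, hη]
  have h3 : ∀ᶠ ε : ℝ in 𝓝[>] 0, G (9 * ε ^ 2) < η := h2.filter_mono nhdsWithin_le_nhds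
  have h4 : ∀ᶠ ε : ℝ in 𝓝[>] 0, ε ∈ Ioo (0 : ℝ) (1 / 6) := Ioo_mem_nhdsGT (by norm_num)
  obtain ⟨ε, k1, k2⟩ := (h3.and h4).exists
  exact ⟨ε, k2.1, k2.2.le, k1⟩

/-- the sum map is nearly injective on kissing configurations (also in the unit ball) -/
theorem asym {η : ℝ} (hη : 0 < η) : ∀ᶠ n : ℕ in atTop, ∀ (X Y Z : Finset (E n)) (a : ℝ), a ≠ 0 →
    (∀ x ∈ X, ‖x‖ ≤ 1) → (∀ x ∈ Y, ‖x‖ ≤ 1) →
    (∀ x ∈ X, ∀ x' ∈ X, x ≠ x' → 1 ≤ ‖x - x'‖ ^ 2) →
    (∀ y ∈ Y, ∀ y' ∈ Y, y ≠ y' → 1 ≤ ‖y - y'‖ ^ 2) →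
    (∀ x ∈ X, ∀ y ∈ Y, x + a • y ∈ Z) →
    (X.card * Y.card : ℝ) ≤ Real.exp (η * n) * Z.card := by
  obtain ⟨ε, h1, h2, h3⟩ := exists_eps (η := η / 2) (by positivity)
  have h4 := code_asym' (s := 3 * ε) (v := 9 * ε ^ 2) (by positivity) (by
    have : (9 * ε ^ 2) ≤ 1 / 4 := by nlinarith
    have h0 : 0 < 9 * ε ^ 2 := by positivity
    nlinarith [mul_pos h0 h0]) (ε := η / 2) (by positivity) (cst ε) (cst_pos h1)
  filter_upwards [h4] with n hn X Y Z a ha hX1 hY1 hX hY hZ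
  have h5 := main_ineq one_pos h1 (by linarith) ha hX1 hY1 hX hY hZ
  have h6 : codeMax (n + 1) (1 - 1 / (1 + 3 * ε)) ≤ codeMax (n + 1) (3 * ε) := by
    apply codeMax_mono
    · have : 1 - 3 * ε ≤ 1 / (1 + 3 * ε) := by
        rw [le_div_iff₀ (by positivity)]
        nlinarith
      linarith
    · linarith
  have h7 : (codeMax (n + 1) (1 - 1 / (1 + 3 * ε)) : ℝ) ≤ codeMax (n + 1) (3 * ε) := by
    exact_mod_cast h6
  refine h5.trans (mul_le_mul_of_nonneg_right ?_ (Nat.cast_nonneg _))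
  refine (mul_le_mul_of_nonneg_left h7 (cst_pos h1).le).trans (hn.trans ?_)
  apply Real.exp_le_exp.2
  have : (0 : ℝ) ≤ n := Nat.cast_nonneg _
  nlinarith

theorem half_ball {n : ℕ} (hn : 0 < n) {Q : Finset (E n)} {c : E n} {m : ℝ} (hm : 0 < m)
    (h1 : ∀ y ∈ Q, ‖y - c‖ ^ 2 ≤ m / 2)
    (h2 : ∀ y ∈ Q, ∀ y' ∈ Q, y ≠ y' → m ≤ ‖y - y'‖ ^ 2) : Q.card ≤ 2 * n := by
  classical
  by_cases hc : c ∈ Q
  · have : Q ⊆ {c} := by
      intro y hy
      rw [Finset.mem_singleton]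
      by_contra hne
      have k1 := h1 y hy
      have k2 := h2 y hy c hc hne
      linarith
    have := Finset.card_le_card this
    rw [Finset.card_singleton] at this
    omega
  · have hinj : Set.InjOn (fun y => y - c) (Q : Set (E n)) := fun y _ y' _ h => sub_left_injective h
    rw [← Finset.card_image_of_injOn hinj]
    apply obtuse n (E n) finrank_euclideanSpace_fin
    · intro x hx h0
      obtain ⟨y, hy, rfl⟩ := Finset.mem_image.1 hx
      rw [sub_eq_zero] at h0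
      exact hc (h0 ▸ hy)
    · intro x hx x' hx' hne
      obtain ⟨y, hy, rfl⟩ := Finset.mem_image.1 hx
      obtain ⟨y', hy', rfl⟩ := Finset.mem_image.1 hx'
      have k1 := h1 y hy
      have k2 := h1 y' hy'
      have k3 := h2 y hy y' hy' (fun h => hne (by rw [h]))
      have k4 : y - y' = (y - c) - (y' - c) := by abel
      rw [k4, @norm_sub_sq_real] at k3
      linarith

/-- explicit: sums and differences together -/
theorem sum_diff {n : ℕ} {X Y Z Z' : Finset (E n)} {a : ℝ} (ha : a ≠ 0)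
    (hX1 : ∀ x ∈ X, ‖x‖ = 1) (hY1 : ∀ x ∈ Y, ‖x‖ = 1)
    (hX : ∀ x ∈ X, ∀ x' ∈ X, x ≠ x' → 1 ≤ ‖x - x'‖ ^ 2)
    (hY : ∀ y ∈ Y, ∀ y' ∈ Y, y ≠ y' → 1 ≤ ‖y - y'‖ ^ 2)
    (hZ : ∀ x ∈ X, ∀ y ∈ Y, x + a • y ∈ Z) (hZ' : ∀ x ∈ X, ∀ y ∈ Y, x - a • y ∈ Z') :
    X.card * Y.card ≤ 2 * n * (Z.card + Z'.card) := by
  classical
  rcases X.eq_empty_or_nonempty with rfl | hXn
  · simp
  have hn : 0 < n := by
    obtain ⟨x, hx⟩ := hXn
    rcases Nat.eq_zero_or_pos n with h | h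
    · subst h
      have h1 := hX1 x hx
      rw [Subsingleton.elim x 0, norm_zero] at h1
      exact absurd h1 zero_ne_one
    · exact h
  have key : ∀ (b : ℝ) (W : Finset (E n)), b ≠ 0 → (∀ x ∈ X, ∀ y ∈ Y, x + b • y ∈ W) →
      ((X ×ˢ Y).filter (fun p => 0 ≤ b * ⟪p.1, p.2⟫_ℝ)).card ≤ 2 * n * W.card := by
    intro b W hb hW
    refine Finset.card_le_mul_card_image_of_maps_to (f := fun p => p.1 + b • p.2)
      (fun p hp => hW _ (Finset.mem_product.1 (Finset.mem_filter.1 hp).1).1 _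
        (Finset.mem_product.1 (Finset.mem_filter.1 hp).1).2) _ (fun z _ => ?_)
    set S := ((X ×ˢ Y).filter (fun p => 0 ≤ b * ⟪p.1, p.2⟫_ℝ)).filter
      (fun p => p.1 + b • p.2 = z) with hS
    have hmem : ∀ p ∈ S, p.1 ∈ X ∧ p.2 ∈ Y ∧ 0 ≤ b * ⟪p.1, p.2⟫_ℝ ∧ p.1 + b • p.2 = z := by
      intro p hp
      rw [hS, Finset.mem_filter, Finset.mem_filter, Finset.mem_product] at hp
      exact ⟨hp.1.1.1, hp.1.1.2, hp.1.2, hp.2⟩
    have hinj : Set.InjOn Prod.fst (S : Set (E n × E n)) := by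
      intro p hp q hq hpq
      have e1 := (hmem p hp).2.2.2
      have e2 := (hmem q hq).2.2.2
      rw [hpq] at e1
      have e3 : b • p.2 = b • q.2 := add_left_cancel (e1.trans e2.symm)
      exact Prod.ext hpq (smul_right_injective _ hb e3)
    rw [← Finset.card_image_of_injOn hinj]
    have hb2 : 0 < b ^ 2 := by positivity
    apply half_ball hn (c := (1 / (1 + b ^ 2)) • z) (m := 2 * (b ^ 2 / (1 + b ^ 2)))
      (by positivity)
    · intro x hx
      obtain ⟨p, hp, rfl⟩ := Finset.mem_image.1 hx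
      obtain ⟨g1, g2, g3, g4⟩ := hmem p hp
      have e1 : p.1 - (1 / (1 + b ^ 2)) • z = (b / (1 + b ^ 2)) • (b • p.1 - p.2) := by
        rw [← g4]
        generalize p.1 = u
        generalize p.2 = v
        match_scalars <;> field_simp <;> ring
      rw [e1, norm_smul, mul_pow, Real.norm_eq_abs, sq_abs, @norm_sub_sq_real, norm_smul,
        mul_pow, Real.norm_eq_abs, sq_abs, hX1 _ g1, hY1 _ g2, real_inner_smul_left]
      have e2 : b ^ 2 * 1 ^ 2 - 2 * (b * ⟪p.1, p.2⟫_ℝ) + 1 ^ 2 ≤ 1 + b ^ 2 := by linarith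
      calc (b / (1 + b ^ 2)) ^ 2 * (b ^ 2 * 1 ^ 2 - 2 * (b * ⟪p.1, p.2⟫_ℝ) + 1 ^ 2)
          ≤ (b / (1 + b ^ 2)) ^ 2 * (1 + b ^ 2) := mul_le_mul_of_nonneg_left e2 (sq_nonneg _)
        _ = _ := by field_simp
    · intro x hx x' hx' hxx
      obtain ⟨p, hp, rfl⟩ := Finset.mem_image.1 hx
      obtain ⟨q, hq, rfl⟩ := Finset.mem_image.1 hx'
      obtain ⟨g1, g2, -, g4⟩ := hmem p hp
      obtain ⟨k1, k2, -, k4⟩ := hmem q hq
      have e1 := hX _ g1 _ k1 hxx
      have e2 : p.1 - q.1 = b • (q.2 - p.2) := by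
        have : p.1 + b • p.2 = q.1 + b • q.2 := g4.trans k4.symm
        rw [smul_sub]
        have e3 : p.1 = q.1 + b • q.2 - b • p.2 := eq_sub_of_add_eq this
        rw [e3]
        abel
      have hne : q.2 ≠ p.2 := by
        intro h
        rw [h, sub_self, smul_zero] at e2
        exact hxx (sub_eq_zero.1 e2)
      have e3 := hY _ k2 _ g2 hne
      have e4 : b ^ 2 * 1 ≤ ‖p.1 - q.1‖ ^ 2 := by
        rw [e2, norm_smul, mul_pow, Real.norm_eq_abs, sq_abs]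
        exact mul_le_mul_of_nonneg_left e3 hb2.le
      rw [← mul_div_assoc, div_le_iff₀ (by positivity)]
      nlinarith
  have h1 := key a Z ha hZ
  have h2 := key (-a) Z' (neg_ne_zero.2 ha) (fun x hx y hy => by
    have := hZ' x hx y hy
    rwa [neg_smul, ← sub_eq_add_neg])
  have h3 : X ×ˢ Y ⊆ (X ×ˢ Y).filter (fun p => 0 ≤ a * ⟪p.1, p.2⟫_ℝ) ∪
      (X ×ˢ Y).filter (fun p => 0 ≤ (-a) * ⟪p.1, p.2⟫_ℝ) := by
    intro p hp
    rw [Finset.mem_union, Finset.mem_filter, Finset.mem_filter]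
    rcases le_total 0 (a * ⟪p.1, p.2⟫_ℝ) with h | h
    · exact Or.inl ⟨hp, h⟩
    · exact Or.inr ⟨hp, by linarith⟩
  have h4 := (Finset.card_le_card h3).trans (Finset.card_union_le _ _)
  rw [Finset.card_product] at h4
  calc X.card * Y.card ≤ _ := h4
    _ ≤ 2 * n * Z.card + 2 * n * Z'.card := add_le_add h1 h2
    _ = _ := by ring

/-- a kissing configuration contains no large sumset -/
theorem no_grid {n : ℕ} {X A B : Finset (E n)} (hX1 : ∀ x ∈ X, ‖x‖ = 1)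
    (hX : ∀ x ∈ X, ∀ x' ∈ X, x ≠ x' → 1 ≤ ‖x - x'‖ ^ 2)
    (hAB : ∀ x ∈ A, ∀ y ∈ B, x + y ∈ X) : min A.card B.card ≤ 2 * n := by
  classical
  rcases A.eq_empty_or_nonempty with rfl | ⟨a0, ha0⟩
  · simp
  rcases B.eq_empty_or_nonempty with rfl | ⟨b0, hb0⟩
  · simp
  have hn : 0 < n := by
    rcases Nat.eq_zero_or_pos n with h | h
    · subst h
      have h1 := hX1 _ (hAB a0 ha0 b0 hb0)
      rw [Subsingleton.elim (a0 + b0) 0, norm_zero] at h1
      exact absurd h1 zero_ne_one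
    · exact h
  have hnorm : ∀ a ∈ A, ∀ b ∈ B, ‖a + b‖ ^ 2 = 1 := fun a ha b hb => by
    rw [hX1 _ (hAB a ha b hb)]; norm_num
  have horth : ∀ a ∈ A, ∀ b ∈ B, ⟪a - a0, b - b0⟫_ℝ = 0 := by
    intro a ha b hb
    have e1 := hnorm a ha b hb
    have e2 := hnorm a0 ha0 b0 hb0
    have e3 := hnorm a0 ha0 b hb
    have e4 := hnorm a ha b0 hb0
    rw [@norm_add_sq_real] at e1 e2 e3 e4
    rw [inner_sub_left, inner_sub_right, inner_sub_right]
    linarith
  set K : Submodule ℝ (E n) := Submodule.span ℝ ((fun a => a - a0) '' (A : Set (E n))) with hK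
  set e : E n := a0 + b0 with he
  set e1 : E n := K.starProjection e with he1
  have hK1 : e1 ∈ K := Submodule.starProjection_apply_mem _ _
  have hK2 : e - e1 ∈ Kᗮ := Submodule.sub_starProjection_mem_orthogonal _
  have hK3 : ∀ b ∈ B, b - b0 ∈ Kᗮ := by
    intro b hb
    rw [Submodule.mem_orthogonal]
    intro u hu
    rw [hK] at hu
    induction hu using Submodule.span_induction with
    | mem x hx =>
      obtain ⟨a, ha, rfl⟩ := hx
      exact horth a ha b hb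
    | zero => exact inner_zero_left _
    | add x y _ _ hx hy => rw [inner_add_left, hx, hy, add_zero]
    | smul c x _ hx => rw [real_inner_smul_left, hx, mul_zero]
  have hsplit : ∀ a ∈ A, ∀ b ∈ B,
      ‖a - (a0 - e1)‖ ^ 2 + ‖b - (b0 - (e - e1))‖ ^ 2 = 1 := by
    intro a ha b hb
    have k1 : a - (a0 - e1) ∈ K := by
      have : a - (a0 - e1) = (a - a0) + e1 := by abel
      rw [this]
      exact K.add_mem (Submodule.subset_span ⟨a, ha, rfl⟩) hK1
    have k2 : b - (b0 - (e - e1)) ∈ Kᗮ := by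
      have : b - (b0 - (e - e1)) = (b - b0) + (e - e1) := by abel
      rw [this]
      exact Kᗮ.add_mem (hK3 b hb) hK2
    have k3 : ⟪a - (a0 - e1), b - (b0 - (e - e1))⟫_ℝ = 0 :=
      (Submodule.mem_orthogonal _ _).1 k2 _ k1
    have k4 : a + b = (a - (a0 - e1)) + (b - (b0 - (e - e1))) := by rw [he]; abel
    have k5 := hnorm a ha b hb
    rw [k4, @norm_add_sq_real, k3] at k5
    linarith
  have hsepA : ∀ a ∈ A, ∀ a' ∈ A, a ≠ a' → 1 ≤ ‖a - a'‖ ^ 2 := by
    intro a ha a' ha' hne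
    have := hX _ (hAB a ha b0 hb0) _ (hAB a' ha' b0 hb0) (fun h => hne (add_right_cancel h))
    rwa [add_sub_add_right_eq_sub] at this
  have hsepB : ∀ b ∈ B, ∀ b' ∈ B, b ≠ b' → 1 ≤ ‖b - b'‖ ^ 2 := by
    intro b hb b' hb' hne
    have := hX _ (hAB a0 ha0 b hb) _ (hAB a0 ha0 b' hb') (fun h => hne (add_left_cancel h))
    rwa [add_sub_add_left_eq_sub] at this
  rcases le_total (‖a0 - (a0 - e1)‖ ^ 2) (1 / 2) with h | h
  · refine (min_le_left _ _).trans (half_ball hn (c := a0 - e1) one_pos (fun a ha => ?_) hsepA)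
    have k1 := hsplit a ha b0 hb0
    have k2 := hsplit a0 ha0 b0 hb0
    linarith
  · refine (min_le_right _ _).trans (half_ball hn (c := b0 - (e - e1)) one_pos
      (fun b hb => ?_) hsepB)
    have k1 := hsplit a0 ha0 b hb
    linarith

/-- every nonzero difference has few representations -/
theorem diff_fibre {n : ℕ} {X : Finset (E n)} (hX1 : ∀ x ∈ X, ‖x‖ ≤ 1)
    (hX : ∀ x ∈ X, ∀ x' ∈ X, x ≠ x' → 1 ≤ ‖x - x'‖ ^ 2) {d : E n} (hd : d ≠ 0)
    (Q : Finset (E n)) (hQ : ∀ x ∈ Q, x ∈ X ∧ x + d ∈ X) :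
    Q.card ≤ codeMax (n + 1) (1 / 3) := by
  rcases Q.eq_empty_or_nonempty with rfl | ⟨q, hq⟩
  · simp
  have hd1 : 1 ≤ ‖d‖ ^ 2 := by
    have := hX _ (hQ q hq).2 _ (hQ q hq).1 (fun h => hd (by
      have : q + d = q + 0 := by rw [h, add_zero]
      exact add_left_cancel this))
    rwa [add_sub_cancel_left] at this
  have h := ball_code (Q := Q) (c := -((1 / 2 : ℝ) • d)) (p := 3 / 4) (m := 1) (by norm_num)
    one_pos (by
      intro x hx
      obtain ⟨k1, k2⟩ := hQ x hx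
      have k3 := hX1 _ k1
      have k4 := hX1 _ k2
      have k5 : ‖x‖ ^ 2 ≤ 1 := by nlinarith [norm_nonneg x]
      have k6 : ‖x + d‖ ^ 2 ≤ 1 := by nlinarith [norm_nonneg (x + d)]
      rw [@norm_add_sq_real] at k6
      rw [sub_neg_eq_add, @norm_add_sq_real, norm_smul, mul_pow, real_inner_smul_right,
        Real.norm_eq_abs, sq_abs]
      linarith) (fun x hx x' hx' hne => hX _ (hQ x hx).1 _ (hQ x' hx').1 hne)
  have e : (1 : ℝ) - 1 / (2 * (3 / 4)) = 1 / 3 := by norm_num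
  rwa [e] at h

open scoped Pointwise Combinatorics.Additive in
open Classical in
/-- expansion of arbitrary finite sets -/
theorem expand {n : ℕ} {X : Finset (E n)} (hX1 : ∀ x ∈ X, ‖x‖ ≤ 1)
    (hX : ∀ x ∈ X, ∀ x' ∈ X, x ≠ x' → 1 ≤ ‖x - x'‖ ^ 2) (B : Finset (E n)) :
    X.card ^ 2 * B.card ≤ (X + B).card * (X.card + codeMax (n + 1) (1 / 3) * B.card) := by
  rcases B.eq_empty_or_nonempty with rfl | hB
  · simp
  have hBc : 0 < B.card := hB.card_pos
  set A := codeMax (n + 1) (1 / 3) with hA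
  have h1 := Finset.le_card_add_mul_addEnergy X B
  have h2 : Finset.addEnergy X B ≤ B.card * (X.card + A * B.card) := by
    unfold Finset.addEnergy
    set S := {x ∈ ((X ×ˢ X) ×ˢ B ×ˢ B) | x.1.1 + x.2.1 = x.1.2 + x.2.2} with hS
    have k1 := Finset.card_eq_sum_card_fiberwise (s := S) (t := B ×ˢ B) (f := Prod.snd)
      (fun x hx => (Finset.mem_product.1 (Finset.mem_filter.1 hx).1).2)
    rw [k1]
    have k2 : ∀ q ∈ B ×ˢ B, (S.filter (fun x => x.2 = q)).card ≤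
        (if q.1 = q.2 then X.card else 0) + A := by
      intro q _
      have hinj : Set.InjOn (fun x : (E n × E n) × (E n × E n) => x.1.1)
          (S.filter (fun x => x.2 = q) : Set ((E n × E n) × (E n × E n))) := by
        intro x hx y hy hxy
        obtain ⟨x1, x2⟩ := Finset.mem_filter.1 hx
        obtain ⟨y1, y2⟩ := Finset.mem_filter.1 hy
        have x3 := (Finset.mem_filter.1 x1).2
        have y3 := (Finset.mem_filter.1 y1).2
        simp only at hxy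
        rw [hxy, x2] at x3
        rw [y2] at y3
        have : x.1.2 = y.1.2 := add_right_cancel (x3.symm.trans y3)
        exact Prod.ext (Prod.ext hxy this) (x2.trans y2.symm)
      rw [← Finset.card_image_of_injOn hinj]
      split_ifs with hq
      · refine le_trans (Finset.card_le_card ?_) (Nat.le_add_right _ _)
        intro u hu
        obtain ⟨x, hx, rfl⟩ := Finset.mem_image.1 hu
        exact (Finset.mem_product.1 (Finset.mem_product.1
          (Finset.mem_filter.1 (Finset.mem_filter.1 hx).1).1).1).1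
      · rw [zero_add]
        apply diff_fibre hX1 hX (d := q.1 - q.2) (sub_ne_zero.2 hq)
        intro u hu
        obtain ⟨x, hx, rfl⟩ := Finset.mem_image.1 hu
        obtain ⟨x1, x2⟩ := Finset.mem_filter.1 hx
        obtain ⟨x3, x4⟩ := Finset.mem_filter.1 x1
        have x5 := Finset.mem_product.1 (Finset.mem_product.1 x3).1
        refine ⟨x5.1, ?_⟩
        rw [x2] at x4
        have : x.1.1 + (q.1 - q.2) = x.1.2 := by
          rw [add_sub, x4]
          abel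
        rw [this]
        exact x5.2
    refine (Finset.sum_le_sum k2).trans ?_
    rw [Finset.sum_add_distrib, Finset.sum_const, Finset.card_product, smul_eq_mul,
      Finset.sum_product]
    have k3 : ∑ x ∈ B, ∑ y ∈ B, (if x = y then X.card else 0) = B.card * X.card := by
      have : ∀ x ∈ B, ∑ y ∈ B, (if x = y then X.card else 0) = X.card := by
        intro x hx
        rw [Finset.sum_ite_eq]
        simp [hx]
      rw [Finset.sum_congr rfl this, Finset.sum_const, smul_eq_mul]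
    simp only
    rw [k3]
    apply le_of_eq
    ring
  have h3 : X.card ^ 2 * B.card ^ 2 ≤ (X + B).card * (B.card * (X.card + A * B.card)) :=
    h1.trans (Nat.mul_le_mul_left _ h2)
  apply Nat.le_of_mul_le_mul_right _ hBc
  calc X.card ^ 2 * B.card * B.card = X.card ^ 2 * B.card ^ 2 := by ring
    _ ≤ _ := h3
    _ = _ := by ring

end Pool.Agent.P8H66.KSum
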