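import Pool.Agent.TH220.NT.Asym

/-! Sumsets of separated sets in the unit ball (for MP_b5f63d_co): the stopping ball argument. -/

open Filter Set
open scoped Topology InnerProductSpace

namespace Pool.Agent.P8H66.KSum

open Pool.Agent.TH220.NT

abbrev E (n : ℕ) := EuclideanSpace ℝ (Fin n)

theorem stop {n : ℕ} {γ ε : ℝ} (hγ0 : 0 < γ) (hγ1 : γ ≤ 1) (hε : 0 < ε) :
    ∀ (k : ℕ) (X : Finset (E n)) (c : E n) (ρ : ℝ), X.Nonempty → ρ ≤ k * ε →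
      (∀ x ∈ X, ‖x - c‖ ^ 2 ≤ ρ) →
      ∃ (X' : Finset (E n)) (c' : E n) (ρ' : ℝ), X' ⊆ X ∧ X'.Nonempty ∧ ρ' ≤ ρ ∧
        (∀ x ∈ X', ‖x - c'‖ ^ 2 ≤ ρ') ∧ γ ^ k * X.card ≤ X'.card ∧
        ∀ b : E n, ((X'.filter (fun x => ‖x - b‖ ^ 2 ≤ ρ' - ε)).card : ℝ) < γ * X'.card := by
  intro k
  induction k with
  | zero =>
    intro X c ρ hX hρ hball
    refine ⟨X, c, ρ, Finset.Subset.refl _, hX, le_rfl, hball, by simp, fun b => ?_⟩
    have h0 : X.filter (fun x => ‖x - b‖ ^ 2 ≤ ρ - ε) = ∅ := by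
      apply Finset.filter_eq_empty_iff.2
      intro x _ h
      have : 0 ≤ ‖x - b‖ ^ 2 := sq_nonneg _
      simp at hρ
      linarith
    rw [h0]
    have : (0 : ℝ) < X.card := by exact_mod_cast hX.card_pos
    simp only [Finset.card_empty, Nat.cast_zero]
    positivity
  | succ k ih =>
    intro X c ρ hX hρ hball
    have hXc : (0 : ℝ) < X.card := by exact_mod_cast hX.card_pos
    by_cases hst : ∀ b : E n,
        ((X.filter (fun x => ‖x - b‖ ^ 2 ≤ ρ - ε)).card : ℝ) < γ * X.card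
    · refine ⟨X, c, ρ, Finset.Subset.refl _, hX, le_rfl, hball, ?_, hst⟩
      have : γ ^ (k + 1) ≤ 1 := pow_le_one₀ hγ0.le hγ1
      nlinarith
    · push Not at hst
      obtain ⟨b, hb⟩ := hst
      set Y := X.filter (fun x => ‖x - b‖ ^ 2 ≤ ρ - ε) with hY
      have hYc : (0 : ℝ) < Y.card := lt_of_lt_of_le (by positivity) hb
      have hYn : Y.Nonempty := Finset.card_pos.1 (by exact_mod_cast hYc)
      obtain ⟨X', c', ρ', h1, h2, h3, h4, h5, h6⟩ := ih Y b (ρ - ε) hYn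
        (by push_cast at hρ; linarith) (fun x hx => (Finset.mem_filter.1 hx).2)
      refine ⟨X', c', ρ', h1.trans (Finset.filter_subset _ _), h2, by linarith, h4, ?_, h6⟩
      calc γ ^ (k + 1) * X.card = γ ^ k * (γ * X.card) := by ring
        _ ≤ γ ^ k * Y.card := mul_le_mul_of_nonneg_left hb (by positivity)
        _ ≤ _ := h5

theorem avg_ge {n : ℕ} {X : Finset (E n)} {ρ ε γ : ℝ} (hρ : ρ ≤ 1) (hε : 0 ≤ ε) (hγ : 0 ≤ γ)
    {b : E n}
    (h : ((X.filter (fun x => ‖x - b‖ ^ 2 ≤ ρ - ε)).card : ℝ) ≤ γ * X.card) :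
    (ρ - ε - γ) * X.card ≤ ∑ x ∈ X, ‖x - b‖ ^ 2 := by
  classical
  have hXc : (0 : ℝ) ≤ X.card := Nat.cast_nonneg _
  rcases le_or_gt (ρ - ε) 0 with h0 | h0
  · have h1 : 0 ≤ ∑ x ∈ X, ‖x - b‖ ^ 2 := Finset.sum_nonneg (fun x _ => sq_nonneg _)
    have h2 : (ρ - ε - γ) * X.card ≤ 0 := mul_nonpos_of_nonpos_of_nonneg (by linarith) hXc
    linarith
  · have h1 : ∀ x ∈ X, (ρ - ε) - (if ‖x - b‖ ^ 2 ≤ ρ - ε then (ρ - ε) else 0) ≤ ‖x - b‖ ^ 2 := by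
      intro x _
      split_ifs with hx
      · have : 0 ≤ ‖x - b‖ ^ 2 := sq_nonneg _
        linarith
      · push Not at hx
        linarith
    have h2 := Finset.sum_le_sum h1
    rw [Finset.sum_sub_distrib, Finset.sum_const, nsmul_eq_mul, ← Finset.sum_filter,
      Finset.sum_const, nsmul_eq_mul] at h2
    have h3 := mul_le_mul_of_nonneg_right h h0.le
    have h4 : γ * X.card * (ρ - ε) ≤ γ * X.card * 1 :=
      mul_le_mul_of_nonneg_left (by linarith) (by positivity)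
    nlinarith

theorem konig {n : ℕ} {X : Finset (E n)} (hX : X.Nonempty) :
    ∃ m : E n, ∀ v : E n,
      ∑ x ∈ X, ‖x - v‖ ^ 2 = ∑ x ∈ X, ‖x - m‖ ^ 2 + X.card * ‖m - v‖ ^ 2 := by
  have hXc : (X.card : ℝ) ≠ 0 := by exact_mod_cast hX.card_pos.ne'
  refine ⟨(X.card : ℝ)⁻¹ • ∑ x ∈ X, x, fun v => ?_⟩
  set m : E n := (X.card : ℝ)⁻¹ • ∑ x ∈ X, x with hm
  have hs : ∑ x ∈ X, (x - m) = 0 := by
    rw [Finset.sum_sub_distrib, Finset.sum_const, ← Nat.cast_smul_eq_nsmul ℝ, hm, smul_smul,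
      mul_inv_cancel₀ hXc, one_smul, sub_self]
  have h1 : ∀ x ∈ X, ‖x - v‖ ^ 2 = ‖x - m‖ ^ 2 + 2 * ⟪x - m, m - v⟫_ℝ + ‖m - v‖ ^ 2 := by
    intro x _
    have : x - v = (x - m) + (m - v) := by abel
    rw [this, @norm_add_sq_real]
  rw [Finset.sum_congr rfl h1, Finset.sum_add_distrib, Finset.sum_add_distrib, ← Finset.mul_sum,
    ← sum_inner, hs, inner_zero_left, Finset.sum_const, nsmul_eq_mul]
  ring

theorem pairs_ge {n : ℕ} {X Y : Finset (E n)} (hX : X.Nonempty) (hY : Y.Nonempty)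
    {c c' : E n} {ρ ρ' ε a : ℝ} (ha : a ≠ 0) (hε : 0 < ε) (hε3 : ε ≤ 1 / 3) (hρ : ρ ≤ 1)
    (hρ' : ρ' ≤ 1) (h1 : ∀ x ∈ X, ‖x - c‖ ^ 2 ≤ ρ) (h1' : ∀ y ∈ Y, ‖y - c'‖ ^ 2 ≤ ρ')
    (h2 : ∀ b : E n, (ρ - 2 * ε) * X.card ≤ ∑ x ∈ X, ‖x - b‖ ^ 2)
    (h2' : ∀ b : E n, (ρ' - 2 * ε) * Y.card ≤ ∑ y ∈ Y, ‖y - b‖ ^ 2) :
    ε / 3 * (X.card * Y.card) ≤ ((X ×ˢ Y).filter (fun p =>
      ρ + a ^ 2 * ρ' - 3 * ε * (1 + a ^ 2) ≤ ‖(p.1 - c) + a • (p.2 - c')‖ ^ 2)).card := by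
  classical
  set T : ℝ := ρ + a ^ 2 * ρ' - 3 * ε * (1 + a ^ 2) with hT
  have ha2 : 0 < a ^ 2 := by positivity
  have hXc : (0 : ℝ) ≤ X.card := Nat.cast_nonneg _
  have hYc : (0 : ℝ) ≤ Y.card := Nat.cast_nonneg _
  have hρ0 : 0 ≤ ρ := by
    obtain ⟨x, hx⟩ := hX
    exact (sq_nonneg _).trans (h1 x hx)
  have hρ0' : 0 ≤ ρ' := by
    obtain ⟨x, hx⟩ := hY
    exact (sq_nonneg _).trans (h1' x hx)
  -- the total sum
  have hS : (ρ - 2 * ε + a ^ 2 * (ρ' - 2 * ε)) * (X.card * Y.card) ≤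
      ∑ p ∈ X ×ˢ Y, ‖(p.1 - c) + a • (p.2 - c')‖ ^ 2 := by
    obtain ⟨m, hm⟩ := konig hX
    rw [Finset.sum_product_right]
    have e1 : ∀ y ∈ Y, (ρ - 2 * ε) * X.card + X.card * (a ^ 2 *
        ‖y - (c' - a⁻¹ • (m - c))‖ ^ 2) ≤ ∑ x ∈ X, ‖(x - c) + a • (y - c')‖ ^ 2 := by
      intro y _
      have e2 : ∀ x ∈ X, ‖(x - c) + a • (y - c')‖ ^ 2 = ‖x - (c - a • (y - c'))‖ ^ 2 := by
        intro x _
        congr 2
        abel
      rw [Finset.sum_congr rfl e2, hm]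
      have e3 : ‖m - (c - a • (y - c'))‖ ^ 2 = a ^ 2 * ‖y - (c' - a⁻¹ • (m - c))‖ ^ 2 := by
        have : m - (c - a • (y - c')) = a • (y - (c' - a⁻¹ • (m - c))) := by
          rw [smul_sub, smul_sub, smul_sub, smul_smul, mul_inv_cancel₀ ha, one_smul]
          abel
        rw [this, norm_smul, mul_pow, Real.norm_eq_abs, sq_abs]
      rw [e3]
      linarith [h2 m]
    have e4 := Finset.sum_le_sum e1
    rw [Finset.sum_add_distrib, Finset.sum_const, nsmul_eq_mul, ← Finset.mul_sum,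
      ← Finset.mul_sum] at e4
    have e5 := mul_le_mul_of_nonneg_left (mul_le_mul_of_nonneg_left
      (h2' (c' - a⁻¹ • (m - c))) ha2.le) hXc
    refine le_trans ?_ e4
    refine le_trans (le_of_eq ?_) (add_le_add_right e5 _)
    ring
  -- termwise bound
  have hterm : ∀ p ∈ X ×ˢ Y, ‖(p.1 - c) + a • (p.2 - c')‖ ^ 2 ≤
      T + (if T ≤ ‖(p.1 - c) + a • (p.2 - c')‖ ^ 2 then 3 * (1 + a ^ 2) else 0) := by
    intro p hp
    obtain ⟨hp1, hp2⟩ := Finset.mem_product.1 hp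
    split_ifs with hc
    · have b1 := h1 _ hp1
      have b2 := h1' _ hp2
      have b3 : ‖(p.1 - c) + a • (p.2 - c')‖ ^ 2 ≤ 2 * (‖p.1 - c‖ ^ 2 + a ^ 2 * ‖p.2 - c'‖ ^ 2) := by
        have c1 := norm_add_le (p.1 - c) (a • (p.2 - c'))
        have c2 : ‖a • (p.2 - c')‖ ^ 2 = a ^ 2 * ‖p.2 - c'‖ ^ 2 := by
          rw [norm_smul, mul_pow, Real.norm_eq_abs, sq_abs]
        rw [← c2]
        nlinarith [norm_nonneg ((p.1 - c) + a • (p.2 - c')), norm_nonneg (p.1 - c),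
          norm_nonneg (a • (p.2 - c')), sq_nonneg (‖p.1 - c‖ - ‖a • (p.2 - c')‖)]
      have b4 : a ^ 2 * ‖p.2 - c'‖ ^ 2 ≤ a ^ 2 * ρ' := mul_le_mul_of_nonneg_left b2 ha2.le
      have b5 : a ^ 2 * ρ' ≤ a ^ 2 * 1 := mul_le_mul_of_nonneg_left hρ' ha2.le
      have b6 : 0 ≤ a ^ 2 * ρ' := by positivity
      have b7 : 3 * ε * (1 + a ^ 2) ≤ 1 * (1 + a ^ 2) :=
        mul_le_mul_of_nonneg_right (by linarith) (by positivity)
      rw [hT]
      linarith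
    · push Not at hc
      linarith
  have h3 := hS.trans (Finset.sum_le_sum hterm)
  rw [Finset.sum_add_distrib, Finset.sum_const, nsmul_eq_mul, ← Finset.sum_filter,
    Finset.sum_const, nsmul_eq_mul, Finset.card_product] at h3
  push_cast at h3
  set N : ℝ := (((X ×ˢ Y).filter (fun p => T ≤ ‖(p.1 - c) + a • (p.2 - c')‖ ^ 2)).card : ℝ)
    with hN
  have h4 : (1 + a ^ 2) * (ε * (X.card * Y.card)) ≤ (1 + a ^ 2) * (3 * N) := by
    rw [hT] at h3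
    nlinarith
  have h5 := le_of_mul_le_mul_left h4 (by positivity)
  linarith

theorem fibre_le {n : ℕ} {X Y : Finset (E n)} {σ ρ ρ' ε a : ℝ} (ha : a ≠ 0) {c c' : E n}
    (z : E n) (hσ : 0 < σ) (hε : 0 ≤ ε) (hρ : ρ ≤ 1) (hρ' : ρ' ≤ 1)
    (h1 : ∀ x ∈ X, ‖x - c‖ ^ 2 ≤ ρ) (h1' : ∀ y ∈ Y, ‖y - c'‖ ^ 2 ≤ ρ')
    (hX : ∀ x ∈ X, ∀ x' ∈ X, x ≠ x' → σ ≤ ‖x - x'‖ ^ 2)
    (hY : ∀ y ∈ Y, ∀ y' ∈ Y, y ≠ y' → σ ≤ ‖y - y'‖ ^ 2) :
    (((X ×ˢ Y).filter (fun p =>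
      ρ + a ^ 2 * ρ' - 3 * ε * (1 + a ^ 2) ≤ ‖(p.1 - c) + a • (p.2 - c')‖ ^ 2)).filter
      (fun p => p.1 + a • p.2 = z)).card ≤ codeMax (n + 1) (1 - σ / (1 + 3 * ε)) := by
  classical
  set S := (((X ×ˢ Y).filter (fun p =>
      ρ + a ^ 2 * ρ' - 3 * ε * (1 + a ^ 2) ≤ ‖(p.1 - c) + a • (p.2 - c')‖ ^ 2)).filter
      (fun p => p.1 + a • p.2 = z)) with hS
  have ha2 : 0 < a ^ 2 := by positivity
  have hmem : ∀ p ∈ S, p.1 ∈ X ∧ p.2 ∈ Y ∧
      ρ + a ^ 2 * ρ' - 3 * ε * (1 + a ^ 2) ≤ ‖(p.1 - c) + a • (p.2 - c')‖ ^ 2 ∧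
      p.1 + a • p.2 = z := by
    intro p hp
    rw [hS, Finset.mem_filter, Finset.mem_filter, Finset.mem_product] at hp
    exact ⟨hp.1.1.1, hp.1.1.2, hp.1.2, hp.2⟩
  have hinj : Set.InjOn Prod.fst (S : Set (E n × E n)) := by
    intro p hp q hq hpq
    have e1 := (hmem p hp).2.2.2
    have e2 := (hmem q hq).2.2.2
    rw [hpq] at e1
    have e3 : a • p.2 = a • q.2 := add_left_cancel (e1.trans e2.symm)
    exact Prod.ext hpq (smul_right_injective _ ha e3)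
  rw [← Finset.card_image_of_injOn hinj]
  have key : ∀ u v : E n, u - (1 / (1 + a ^ 2)) • (u + a • v) =
      (a / (1 + a ^ 2)) • (a • u - v) := by
    intro u v
    match_scalars <;> field_simp <;> ring
  set p0 : ℝ := a ^ 2 / (1 + a ^ 2) * (1 + 3 * ε) with hp0
  have hp0' : 0 < p0 := by positivity
  set m0 : ℝ := σ * max 1 (a ^ 2) with hm0
  have hm0' : 0 < m0 := by positivity
  have hb := ball_code (Q := S.image Prod.fst)
    (c := c + (1 / (1 + a ^ 2)) • (z - c - a • c')) hp0' hm0' (by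
      intro x hx
      obtain ⟨p, hp, rfl⟩ := Finset.mem_image.1 hx
      obtain ⟨g1, g2, g3, g4⟩ := hmem p hp
      set u := p.1 - c with hu
      set v := p.2 - c' with hv
      have e1 : z - c - a • c' = u + a • v := by
        rw [← g4, hu, hv, smul_sub]
        abel
      have e2 : p.1 - (c + (1 / (1 + a ^ 2)) • (z - c - a • c')) =
          (a / (1 + a ^ 2)) • (a • u - v) := by
        rw [e1]
        have e3 : p.1 - (c + (1 / (1 + a ^ 2)) • (u + a • v)) =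
            u - (1 / (1 + a ^ 2)) • (u + a • v) := by rw [hu]; abel
        rw [e3]
        exact key u v
      rw [e2, norm_smul, mul_pow, Real.norm_eq_abs, sq_abs]
      have e6 : ‖a • u - v‖ ^ 2 + ‖u + a • v‖ ^ 2 = (1 + a ^ 2) * (‖u‖ ^ 2 + ‖v‖ ^ 2) := by
        rw [@norm_sub_sq_real, @norm_add_sq_real, norm_smul, norm_smul, mul_pow, mul_pow,
          Real.norm_eq_abs, sq_abs, real_inner_smul_left, real_inner_smul_right]
        ring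
      have g5 := h1 _ g1
      have g6 := h1' _ g2
      have e7 : ‖a • u - v‖ ^ 2 ≤ (1 + a ^ 2) * (1 + 3 * ε) := by
        have k1 : (1 + a ^ 2) * (‖u‖ ^ 2 + ‖v‖ ^ 2) ≤ (1 + a ^ 2) * (ρ + ρ') :=
          mul_le_mul_of_nonneg_left (by linarith) (by positivity)
        have k2 : a ^ 2 * ρ ≤ a ^ 2 * 1 := mul_le_mul_of_nonneg_left hρ ha2.le
        nlinarith
      calc (a / (1 + a ^ 2)) ^ 2 * ‖a • u - v‖ ^ 2
          ≤ (a / (1 + a ^ 2)) ^ 2 * ((1 + a ^ 2) * (1 + 3 * ε)) :=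
            mul_le_mul_of_nonneg_left e7 (sq_nonneg _)
        _ = p0 := by rw [hp0]; field_simp) (by
      intro x hx x' hx' hxx
      obtain ⟨p, hp, rfl⟩ := Finset.mem_image.1 hx
      obtain ⟨q, hq, rfl⟩ := Finset.mem_image.1 hx'
      obtain ⟨g1, g2, -, g4⟩ := hmem p hp
      obtain ⟨k1, k2, -, k4⟩ := hmem q hq
      have e1 := hX _ g1 _ k1 hxx
      have e2 : p.1 - q.1 = a • (q.2 - p.2) := by
        have : p.1 + a • p.2 = q.1 + a • q.2 := g4.trans k4.symm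
        rw [smul_sub]
        have e3 : p.1 = q.1 + a • q.2 - a • p.2 := eq_sub_of_add_eq this
        rw [e3]
        abel
      have hne : q.2 ≠ p.2 := by
        intro h
        rw [h, sub_self, smul_zero] at e2
        exact hxx (sub_eq_zero.1 e2)
      have e3 := hY _ k2 _ g2 hne
      have e4 : a ^ 2 * σ ≤ ‖p.1 - q.1‖ ^ 2 := by
        rw [e2, norm_smul, mul_pow, Real.norm_eq_abs, sq_abs]
        exact mul_le_mul_of_nonneg_left e3 ha2.le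
      rw [hm0]
      rcases max_cases 1 (a ^ 2) with ⟨hmx, _⟩ | ⟨hmx, _⟩ <;> rw [hmx] <;> linarith)
  refine hb.trans (codeMax_mono _ ?_ ?_)
  · have k1 : σ / (1 + 3 * ε) ≤ m0 / (2 * p0) := by
      rw [hm0, hp0, div_le_div_iff₀ (by positivity) (by positivity)]
      have k2 : 2 * (a ^ 2 / (1 + a ^ 2)) ≤ max 1 (a ^ 2) := by
        rw [← mul_div_assoc, div_le_iff₀ (by positivity)]
        rcases max_cases 1 (a ^ 2) with ⟨hmx, h⟩ | ⟨hmx, h⟩ <;> rw [hmx] <;> nlinarith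
      have k3 := mul_le_mul_of_nonneg_left k2 (show 0 ≤ σ * (1 + 3 * ε) by positivity)
      nlinarith
    linarith
  · have : 0 < σ / (1 + 3 * ε) := by positivity
    linarith

end Pool.Agent.P8H66.KSum
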