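import Pool.Agent.P8H66.KSum.Main

/-! Sums of separated sets and arbitrary sets in a ball (for MP_b5f63d_co). -/

open Filter Set
open scoped Topology InnerProductSpace

namespace Pool.Agent.P8H66.KSum

open Pool.Agent.TH220.NT

theorem typical {n : ℕ} {X : Finset (E n)} {c : E n} {ρ t γ : ℝ} (ht : 0 < t)
    (h1 : ∀ x ∈ X, ‖x - c‖ ^ 2 ≤ ρ)
    (hst : ∀ b : E n, ((X.filter (fun x => ‖x - b‖ ^ 2 ≤ ρ - t ^ 2)).card : ℝ) ≤ γ * X.card)
    (v : E n) :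
    (1 - 2 * γ) * X.card ≤
      ((X.filter (fun x => ρ + ‖v‖ ^ 2 - t ^ 2 - 2 * t * ‖v‖ ≤ ‖(x - c) + v‖ ^ 2)).card : ℝ) := by
  classical
  set b : E n := c - (t / ‖v‖) • v with hb
  set S1 := X.filter (fun x => ‖x - c‖ ^ 2 ≤ ρ - t ^ 2) with hS1
  set S2 := X.filter (fun x => ‖x - b‖ ^ 2 ≤ ρ - t ^ 2) with hS2
  set S3 := X.filter (fun x => ρ + ‖v‖ ^ 2 - t ^ 2 - 2 * t * ‖v‖ ≤ ‖(x - c) + v‖ ^ 2) with hS3
  have hsub : X ⊆ S3 ∪ (S1 ∪ S2) := by
    intro x hx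
    by_contra hcon
    rw [Finset.mem_union, Finset.mem_union, hS1, hS2, hS3, Finset.mem_filter, Finset.mem_filter,
      Finset.mem_filter] at hcon
    push Not at hcon
    obtain ⟨k3, k1, k2⟩ := hcon
    have k3 := k3 hx
    have k1 := k1 hx
    have k2 := k2 hx
    have k0 := h1 x hx
    set u := x - c with hu
    rw [@norm_add_sq_real] at k3
    rcases eq_or_ne v 0 with hv | hv
    · rw [hv, inner_zero_right, norm_zero] at k3
      linarith
    · have hvn : 0 < ‖v‖ := norm_pos_iff.2 hv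
      have e1 : x - b = u + (t / ‖v‖) • v := by rw [hb, hu]; abel
      rw [e1, @norm_add_sq_real, norm_smul, mul_pow, real_inner_smul_right, Real.norm_eq_abs,
        sq_abs, div_pow, div_mul_cancel₀ _ (by positivity)] at k2
      have e2 : -(t ^ 2) < t / ‖v‖ * ⟪u, v⟫_ℝ := by linarith
      have e3 : -(t * ‖v‖) < ⟪u, v⟫_ℝ := by
        rw [div_mul_eq_mul_div, lt_div_iff₀ hvn] at e2
        have : t * (-(t * ‖v‖)) < t * ⟪u, v⟫_ℝ := by linarith
        exact lt_of_mul_lt_mul_left this ht.le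
      linarith
  have h2 := (Finset.card_le_card hsub).trans (Finset.card_union_le _ _)
  have h3 := Finset.card_union_le S1 S2
  have h4 : (X.card : ℝ) ≤ S3.card + (S1.card + S2.card) := by exact_mod_cast h2.trans (by omega)
  have h5 := hst c
  have h6 := hst b
  rw [← hS1] at h5
  rw [← hS2] at h6
  linarith

theorem fibre2 {n : ℕ} {X B : Finset (E n)} {σ ρ R κ : ℝ} {c c' z : E n} (hσ : 0 < σ)
    (hR : 0 < R) (hκ : 0 ≤ κ) (hρ : ρ ≤ 1) (h1 : ∀ x ∈ X, ‖x - c‖ ^ 2 ≤ ρ)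
    (h1' : ∀ y ∈ B, ‖y - c'‖ ≤ R)
    (hX : ∀ x ∈ X, ∀ x' ∈ X, x ≠ x' → σ ≤ ‖x - x'‖ ^ 2) (S : Finset (E n × E n))
    (hS : ∀ p ∈ S, p.1 ∈ X ∧ p.2 ∈ B ∧
      ρ + ‖p.2 - c'‖ ^ 2 - κ ≤ ‖(p.1 - c) + (p.2 - c')‖ ^ 2 ∧ p.1 + p.2 = z) :
    S.card ≤ codeMax (n + 1) (1 - σ / (2 * (R ^ 2 / (1 + R ^ 2) + κ / 4))) := by
  classical
  have hinj : Set.InjOn Prod.fst (S : Set (E n × E n)) := by
    intro p hp q hq hpq
    have e1 := (hS p hp).2.2.2
    have e2 := (hS q hq).2.2.2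
    rw [hpq] at e1
    exact Prod.ext hpq (add_left_cancel (e1.trans e2.symm))
  rw [← Finset.card_image_of_injOn hinj]
  apply ball_code (c := c + (1 / (1 + R ^ 2)) • (z - c - c')) (by positivity) hσ
  · intro x hx
    obtain ⟨p, hp, rfl⟩ := Finset.mem_image.1 hx
    obtain ⟨g1, g2, g3, g4⟩ := hS p hp
    set u := p.1 - c with hu
    set v := p.2 - c' with hv
    have e1 : z - c - c' = u + v := by
      rw [← g4, hu, hv]; abel
    set q : ℝ := 1 / (1 + R ^ 2) with hq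
    have hq0 : 0 < q := by positivity
    have hq1 : q < 1 := by
      rw [hq, div_lt_one (by positivity)]
      nlinarith
    have e2 : p.1 - (c + q • (z - c - c')) = (1 - q) • u - q • v := by
      rw [e1]
      have e3 : p.1 - (c + q • (u + v)) = u - q • (u + v) := by rw [hu]; abel
      rw [e3, smul_add, sub_smul, one_smul]
      abel
    have e3 : ‖(1 - q) • u - q • v‖ ^ 2 =
        (1 - q) * ‖u‖ ^ 2 + q * ‖v‖ ^ 2 - q * (1 - q) * ‖u + v‖ ^ 2 := by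
      rw [@norm_sub_sq_real, @norm_add_sq_real, norm_smul, norm_smul, mul_pow, mul_pow,
        Real.norm_eq_abs, Real.norm_eq_abs, sq_abs, sq_abs, real_inner_smul_left,
        real_inner_smul_right]
      ring
    rw [e2, e3]
    have g5 := h1 _ g1
    have g6 : ‖v‖ ^ 2 ≤ R ^ 2 := by
      have := h1' _ g2
      nlinarith [norm_nonneg v]
    have k1 : (1 - q) * ‖u‖ ^ 2 ≤ (1 - q) * ρ := mul_le_mul_of_nonneg_left g5 (by linarith)
    have k2 : q * (1 - q) * (ρ + ‖v‖ ^ 2 - κ) ≤ q * (1 - q) * ‖u + v‖ ^ 2 :=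
      mul_le_mul_of_nonneg_left g3 (by nlinarith)
    have k3 : (1 - q) ^ 2 * ρ ≤ (1 - q) ^ 2 * 1 := mul_le_mul_of_nonneg_left hρ (sq_nonneg _)
    have k4 : q ^ 2 * ‖v‖ ^ 2 ≤ q ^ 2 * R ^ 2 := mul_le_mul_of_nonneg_left g6 (sq_nonneg _)
    have k5 : q * (1 - q) * κ ≤ 1 / 4 * κ := by
      apply mul_le_mul_of_nonneg_right _ hκ
      nlinarith [sq_nonneg (q - 1 / 2)]
    have k6 : (1 - q) ^ 2 * 1 + q ^ 2 * R ^ 2 = R ^ 2 / (1 + R ^ 2) := by
      rw [hq]; field_simp; ring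
    rw [← k6]
    nlinarith
  · intro x hx x' hx' hxx
    obtain ⟨p, hp, rfl⟩ := Finset.mem_image.1 hx
    obtain ⟨q, hq, rfl⟩ := Finset.mem_image.1 hx'
    exact hX _ (hS p hp).1 _ (hS q hq).1 hxx

theorem main2 {n : ℕ} {σ R t : ℝ} (hσ : 0 < σ) (hR : 0 < R) (ht : 0 < t) (ht1 : t ≤ 1)
    {X B Z : Finset (E n)} {c' : E n} (hX1 : ∀ x ∈ X, ‖x‖ ≤ 1) (hB : ∀ y ∈ B, ‖y - c'‖ ≤ R)
    (hX : ∀ x ∈ X, ∀ x' ∈ X, x ≠ x' → σ ≤ ‖x - x'‖ ^ 2)
    (hZ : ∀ x ∈ X, ∀ y ∈ B, x + y ∈ Z) :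
    (X.card * B.card : ℝ) ≤ 2 * 4 ^ ⌈1 / t ^ 2⌉₊ *
      codeMax (n + 1) (1 - σ / (2 * (R ^ 2 / (1 + R ^ 2) + t * (1 + 2 * R) / 4))) * Z.card := by
  classical
  rcases X.eq_empty_or_nonempty with rfl | hXn
  · simp only [Finset.card_empty, Nat.cast_zero, zero_mul]
    positivity
  set K := ⌈1 / t ^ 2⌉₊ with hK
  have hK1 : (1 : ℝ) ≤ K * t ^ 2 := by
    have := Nat.le_ceil (1 / t ^ 2)
    rw [div_le_iff₀ (by positivity)] at this
    exact this
  obtain ⟨X', c, ρ, a1, a2, a3, a4, a5, a6⟩ := stop (γ := 1 / 4) (ε := t ^ 2) (by norm_num)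
    (by norm_num) (by positivity) K X 0 1 hXn hK1 (by
      intro x hx
      rw [sub_zero]
      have := hX1 x hx
      nlinarith [norm_nonneg x])
  set κ : ℝ := t * (1 + 2 * R) with hκ
  have hκ0 : 0 ≤ κ := by positivity
  set N := (X' ×ˢ B).filter (fun p => ρ + ‖p.2 - c'‖ ^ 2 - κ ≤ ‖(p.1 - c) + (p.2 - c')‖ ^ 2)
    with hN
  -- many good pairs
  have h1 : 1 / 2 * (X'.card * B.card : ℝ) ≤ N.card := by
    have k1 : N.card = ∑ y ∈ B, (X'.filter (fun x =>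
        ρ + ‖y - c'‖ ^ 2 - κ ≤ ‖(x - c) + (y - c')‖ ^ 2)).card := by
      rw [Finset.card_eq_sum_card_fiberwise (s := N) (t := B) (f := Prod.snd)
        (fun p hp => (Finset.mem_product.1 (Finset.mem_filter.1 hp).1).2)]
      refine Finset.sum_congr rfl (fun y hy => ?_)
      apply Finset.card_bij (fun p _ => p.1)
      · intro p hp
        obtain ⟨p1, p2⟩ := Finset.mem_filter.1 hp
        obtain ⟨p3, p4⟩ := Finset.mem_filter.1 p1
        rw [p2] at p4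
        exact Finset.mem_filter.2 ⟨(Finset.mem_product.1 p3).1, p4⟩
      · intro p hp q hq hpq
        exact Prod.ext hpq (((Finset.mem_filter.1 hp).2).trans (Finset.mem_filter.1 hq).2.symm)
      · intro x hx
        obtain ⟨x1, x2⟩ := Finset.mem_filter.1 hx
        exact ⟨(x, y), Finset.mem_filter.2 ⟨Finset.mem_filter.2
          ⟨Finset.mem_product.2 ⟨x1, hy⟩, x2⟩, rfl⟩, rfl⟩
    rw [k1]
    push_cast
    have k2 : ∀ y ∈ B, 1 / 2 * (X'.card : ℝ) ≤ ((X'.filter (fun x =>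
        ρ + ‖y - c'‖ ^ 2 - κ ≤ ‖(x - c) + (y - c')‖ ^ 2)).card : ℝ) := by
      intro y hy
      have k3 := typical ht a4 (fun b => (a6 b).le) (y - c')
      have k4 : ((X'.filter (fun x => ρ + ‖y - c'‖ ^ 2 - t ^ 2 - 2 * t * ‖y - c'‖ ≤
          ‖(x - c) + (y - c')‖ ^ 2)).card : ℝ) ≤ ((X'.filter (fun x =>
          ρ + ‖y - c'‖ ^ 2 - κ ≤ ‖(x - c) + (y - c')‖ ^ 2)).card : ℝ) := by
        norm_cast
        apply Finset.card_le_card
        intro x hx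
        obtain ⟨x1, x2⟩ := Finset.mem_filter.1 hx
        refine Finset.mem_filter.2 ⟨x1, le_trans ?_ x2⟩
        have := hB y hy
        rw [hκ]
        nlinarith [mul_le_mul_of_nonneg_left this ht.le, mul_nonneg ht.le (sub_nonneg.2 ht1)]
      linarith
    have k5 := Finset.sum_le_sum k2
    rw [Finset.sum_const, nsmul_eq_mul] at k5
    linarith
  have h2 := Finset.card_le_mul_card_image_of_maps_to (s := N) (f := fun p => p.1 + p.2) (t := Z)
    (fun p hp => hZ _ (a1 (Finset.mem_product.1 (Finset.mem_filter.1 hp).1).1) _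
      (Finset.mem_product.1 (Finset.mem_filter.1 hp).1).2)
    (codeMax (n + 1) (1 - σ / (2 * (R ^ 2 / (1 + R ^ 2) + κ / 4))))
    (fun z _ => fibre2 (z := z) hσ hR hκ0 a3 a4 hB (fun x hx x' hx' => hX x (a1 hx) x' (a1 hx')) _
      (fun p hp => by
        obtain ⟨p1, p2⟩ := Finset.mem_filter.1 hp
        obtain ⟨p3, p4⟩ := Finset.mem_filter.1 p1
        exact ⟨(Finset.mem_product.1 p3).1, (Finset.mem_product.1 p3).2, p4, p2⟩))
  set A := codeMax (n + 1) (1 - σ / (2 * (R ^ 2 / (1 + R ^ 2) + κ / 4))) with hA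
  have h3 : 1 / 2 * (X'.card * B.card : ℝ) ≤ A * Z.card := h1.trans (by exact_mod_cast h2)
  have hB0 : (0 : ℝ) ≤ B.card := Nat.cast_nonneg _
  have h4 : (1 / 4 : ℝ) ^ K * X.card * B.card ≤ X'.card * B.card :=
    mul_le_mul_of_nonneg_right a5 hB0
  calc (X.card * B.card : ℝ) = 4 ^ K * ((1 / 4 : ℝ) ^ K * X.card * B.card) := by
        rw [← mul_assoc, ← mul_assoc, ← mul_pow]
        norm_num
    _ ≤ 4 ^ K * (2 * (A * Z.card)) := mul_le_mul_of_nonneg_left (by linarith) (by positivity)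
    _ = _ := by ring

/-- general radius and separation -/
theorem main2_gen {σ R ε : ℝ} (hσ : 0 < σ) (hR : 0 < R) (hε : 0 < ε)
    (hlt : ε < σ * (1 + R ^ 2) / (2 * R ^ 2)) : ∃ K : ℝ, 0 < K ∧
    ∀ (n : ℕ) (X B Z : Finset (E n)) (c' : E n), (∀ x ∈ X, ‖x‖ ≤ 1) →
      (∀ y ∈ B, ‖y - c'‖ ≤ R) → (∀ x ∈ X, ∀ x' ∈ X, x ≠ x' → σ ≤ ‖x - x'‖ ^ 2) →
      (∀ x ∈ X, ∀ y ∈ B, x + y ∈ Z) → (X.card * B.card : ℝ) ≤
        K * codeMax (n + 1) (1 - σ * (1 + R ^ 2) / (2 * R ^ 2) + ε) * Z.card := by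
  set P : ℝ := R ^ 2 / (1 + R ^ 2) with hP
  have hP0 : 0 < P := by positivity
  set t : ℝ := min 1 (8 * P ^ 2 * ε / (σ * (1 + 2 * R))) with ht
  have ht0 : 0 < t := lt_min one_pos (by positivity)
  refine ⟨2 * 4 ^ ⌈1 / t ^ 2⌉₊, by positivity, fun n X B Z c' hX1 hB hX hZ => ?_⟩
  have h1 := main2 hσ hR ht0 (min_le_left _ _) hX1 hB hX hZ
  refine h1.trans ?_
  apply mul_le_mul_of_nonneg_right _ (Nat.cast_nonneg _)
  apply mul_le_mul_of_nonneg_left _ (by positivity)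
  norm_cast
  apply codeMax_mono
  · have k1 : t ≤ 8 * P ^ 2 * ε / (σ * (1 + 2 * R)) := min_le_right _ _
    rw [le_div_iff₀ (by positivity)] at k1
    have k2 : σ * (1 + R ^ 2) / (2 * R ^ 2) = σ / (2 * P) := by
      rw [hP]; field_simp
    rw [k2, ← hP]
    set κ : ℝ := t * (1 + 2 * R) / 4 with hκ
    have hκ0 : 0 < κ := by positivity
    have k3 : σ * κ ≤ 2 * P ^ 2 * ε := by rw [hκ]; linarith
    have k4 : σ / (2 * P) - ε ≤ σ / (2 * (P + κ)) := by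
      rw [sub_le_iff_le_add, div_le_iff₀ (by positivity)]
      have k5 : (σ / (2 * (P + κ)) + ε) * (2 * P) =
          (σ * P + 2 * P * ε * (P + κ)) / (P + κ) := by field_simp
      rw [k5, le_div_iff₀ (by positivity)]
      nlinarith [mul_pos (mul_pos hP0 hε) hκ0]
    linarith
  · linarith

/-- codes with negative inner products -/
theorem codeMax_neg {n : ℕ} {s : ℝ} (hs : s < 0) : (codeMax n s : ℝ) ≤ 1 + 1 / (-s) := by
  obtain ⟨C, h1, h2, h3⟩ := codeMax_mem n (s := s) (by linarith)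
  rw [← h3]
  set m : ℝ := (C.card : ℝ) with hm
  rcases C.eq_empty_or_nonempty with h0 | hne
  · rw [hm, h0]
    simp only [Finset.card_empty, Nat.cast_zero]
    have : 0 < 1 / (-s) := by have : 0 < -s := by linarith
                              positivity
    linarith
  classical
  have hm0 : 0 < m := by rw [hm]; exact_mod_cast hne.card_pos
  have h4 : 0 ≤ ⟪∑ x ∈ C, x, ∑ y ∈ C, y⟫_ℝ := real_inner_self_nonneg
  rw [sum_inner] at h4
  have h5 : ∀ x ∈ C, ⟪x, ∑ y ∈ C, y⟫_ℝ ≤ m * s + (1 - s) := by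
    intro x hx
    rw [inner_sum]
    have : ∀ y ∈ C, ⟪x, y⟫_ℝ ≤ s + (if x = y then 1 - s else 0) := by
      intro y hy
      split_ifs with hxy
      · rw [← hxy, real_inner_self_eq_norm_sq, h1 x hx]; linarith
      · rw [add_zero]; exact h2 x hx y hy hxy
    refine (Finset.sum_le_sum this).trans ?_
    rw [Finset.sum_add_distrib, Finset.sum_const, nsmul_eq_mul, Finset.sum_ite_eq]
    simp [hx, hm]
  have h6 := Finset.sum_le_sum h5
  rw [Finset.sum_const, nsmul_eq_mul] at h6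
  have h7 : 0 ≤ m * (m * s + (1 - s)) := h4.trans h6
  have h8 : 0 ≤ m * s + (1 - s) := by
    by_contra hcon
    push Not at hcon
    have := mul_neg_of_pos_of_neg hm0 hcon
    linarith
  have hs' : 0 < -s := by linarith
  rw [← sub_le_iff_le_add', le_div_iff₀ hs']
  linarith

/-- radius smaller than one: a constant loss -/
theorem const_loss {r : ℝ} (hr : 0 < r) (hr1 : r < 1) : ∃ K : ℝ, 0 < K ∧
    ∀ (n : ℕ) (X B Z : Finset (E n)) (c' : E n), (∀ x ∈ X, ‖x‖ ≤ 1) →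
      (∀ y ∈ B, ‖y - c'‖ ≤ r) → (∀ x ∈ X, ∀ x' ∈ X, x ≠ x' → 1 ≤ ‖x - x'‖ ^ 2) →
      (∀ x ∈ X, ∀ y ∈ B, x + y ∈ Z) → (X.card * B.card : ℝ) ≤ K * Z.card := by
  have hr2 : r ^ 2 < 1 := by nlinarith
  set d : ℝ := (1 - r ^ 2) / (2 * r ^ 2) with hd
  have hd0 : 0 < d := div_pos (by linarith) (by positivity)
  have e1 : (1 : ℝ) * (1 + r ^ 2) / (2 * r ^ 2) = 1 + d := by rw [hd]; field_simp; ring
  obtain ⟨K, hK, h⟩ := main2_gen (σ := 1) (R := r) (ε := d / 2) one_pos hr (by positivity)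
    (by rw [e1]; linarith)
  refine ⟨K * (1 + 1 / (d / 2)), by positivity, fun n X B Z c' hX1 hB hX hZ => ?_⟩
  have h1 := h n X B Z c' hX1 hB hX hZ
  rw [e1] at h1
  have e2 : 1 - (1 + d) + d / 2 = -(d / 2) := by ring
  rw [e2] at h1
  have h2 := codeMax_neg (n := n + 1) (s := -(d / 2)) (by linarith)
  rw [neg_neg] at h2
  refine h1.trans ?_
  apply mul_le_mul_of_nonneg_right _ (Nat.cast_nonneg _)
  exact mul_le_mul_of_nonneg_left h2 hK.le

/-- radius one: a subexponential loss -/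
theorem asym2 {η : ℝ} (hη : 0 < η) : ∀ᶠ n : ℕ in atTop, ∀ (X B Z : Finset (E n)) (c' : E n),
    (∀ x ∈ X, ‖x‖ ≤ 1) → (∀ y ∈ B, ‖y - c'‖ ≤ 1) →
    (∀ x ∈ X, ∀ x' ∈ X, x ≠ x' → 1 ≤ ‖x - x'‖ ^ 2) →
    (∀ x ∈ X, ∀ y ∈ B, x + y ∈ Z) →
    (X.card * B.card : ℝ) ≤ Real.exp (η * n) * Z.card := by
  obtain ⟨ε, h1, h2, h3⟩ := exists_eps (η := η / 2) (by positivity)
  have h4 := code_asym' (s := 3 * ε) (v := 9 * ε ^ 2) (by positivity) (by
    have : (9 * ε ^ 2) ≤ 1 / 4 := by nlinarith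
    have h0 : 0 < 9 * ε ^ 2 := by positivity
    nlinarith [mul_pos h0 h0]) (ε := η / 2) (by positivity) (2 * 4 ^ ⌈1 / (2 * ε) ^ 2⌉₊)
      (by positivity)
  filter_upwards [h4] with n hn X B Z c' hX1 hB hX hZ
  have h5 := main2 (t := 2 * ε) one_pos one_pos (by linarith) (by linarith) hX1 hB hX hZ
  refine h5.trans (mul_le_mul_of_nonneg_right ?_ (Nat.cast_nonneg _))
  have h6 : codeMax (n + 1) (1 - 1 / (2 * ((1 : ℝ) ^ 2 / (1 + 1 ^ 2) +
      2 * ε * (1 + 2 * 1) / 4))) ≤ codeMax (n + 1) (3 * ε) := by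
    apply codeMax_mono
    · have : 1 - 3 * ε ≤ 1 / (2 * ((1 : ℝ) ^ 2 / (1 + 1 ^ 2) + 2 * ε * (1 + 2 * 1) / 4)) := by
        rw [le_div_iff₀ (by positivity)]
        nlinarith
      linarith
    · linarith
  refine (mul_le_mul_of_nonneg_left (by exact_mod_cast h6) (by positivity)).trans (hn.trans ?_)
  apply Real.exp_le_exp.2
  have : (0 : ℝ) ≤ n := Nat.cast_nonneg _
  nlinarith

end Pool.Agent.P8H66.KSum
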